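import Mathlib
import Pool.Agent.Q64.SF.Final

/-! # MP_eb888f_an, Q1: exactly one shock formation profile for the third order equation

There is exactly one smooth (`C^∞`) odd function `g` on the real line with
`(g g')'' = (1/3) z g'` everywhere and with the limits `1` at `-∞` and `-1` at `+∞`. -/

set_option autoImplicit false

open Filter Topology
open scoped ContDiff

namespace Pool.Agent.Results.MP_eb888f_an.UniqueProfile

/-- The profiles of equation (A): smooth odd solutions with the prescribed limits. -/
structure IsProfile (g : ℝ → ℝ) : Prop where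
  smooth : ContDiff ℝ ∞ g
  odd : ∀ z : ℝ, g (-z) = -g z
  ode : ∀ z : ℝ, deriv (deriv fun y => g y * deriv g y) z = 1 / 3 * z * deriv g z
  atBot : Tendsto g atBot (𝓝 1)
  atTop : Tendsto g atTop (𝓝 (-1))

theorem result : ∃! g : ℝ → ℝ, IsProfile g := by
  obtain ⟨g, h⟩ := Pool.Agent.Q64.SF.exists_prof
  refine ⟨g, ⟨h.smooth, h.odd, h.ode, h.bot, h.top⟩, fun g' h' => ?_⟩
  exact Pool.Agent.Q64.SF.prof_unique ⟨h'.smooth, h'.odd, h'.ode, h'.atBot, h'.atTop⟩ h

end Pool.Agent.Results.MP_eb888f_an.UniqueProfile
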